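import Pool.Agent.H95.RQ.Targets1

/-!
# QCH: the choice of the modulus for the crossing with cyclotomic fields
-/

set_option autoImplicit false

namespace Pool.Agent.H61.RQ

open Pool.Agent.H95.RQ Pool.Agent.H28.RC

/-- the order of `a` modulo a divisor divides the order of `a`. -/
lemma ord_dvd (a q q' : ℕ) (h : q ∣ q') : orderOf (a : ZMod q) ∣ orderOf (a : ZMod q') := by
  have h1 := orderOf_map_dvd (ZMod.castHom h (ZMod q)).toMonoidHom (a : ZMod q')
  simpa using h1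

/-- prime powers. -/
lemma ppow (h : T_ORD) (a l k : ℕ) (ha : 2 ≤ a) (hl : l.Prime) (b : ℕ) (hb : b ≠ 0) :
    ∃ q : ℕ, 1 ≤ q ∧ q.Coprime b ∧ q.Coprime a ∧ l ^ k ∣ orderOf (a : ZMod q) := by
  have h1 : ∀ s : ℕ, ∃ q : ℕ, q.Prime ∧ orderOf (a : ZMod q) = l ^ (s + k + 2) :=
    fun s => h a l (s + k + 2) ha hl (by omega)
  choose f hf hf2 using h1
  have hinj : Function.Injective f := by
    intro s t hst
    have h2 : l ^ (s + k + 2) = l ^ (t + k + 2) := by
      rw [← hf2 s, ← hf2 t, hst]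
    have := Nat.pow_right_injective hl.two_le h2
    omega
  obtain ⟨q, ⟨s, rfl⟩, hq⟩ := (Set.infinite_range_of_injective hinj).exists_gt b
  refine ⟨f s, (hf s).one_le, ?_, ?_, ?_⟩
  · rw [(hf s).coprime_iff_not_dvd]
    intro hd
    exact absurd (Nat.le_of_dvd (Nat.pos_of_ne_zero hb) hd) (by omega)
  · rw [(hf s).coprime_iff_not_dvd]
    intro hd
    have : Fact (f s).Prime := ⟨hf s⟩
    have h0 : (a : ZMod (f s)) = 0 := (ZMod.natCast_eq_zero_iff _ _).2 hd
    have h3 := pow_orderOf_eq_one (a : ZMod (f s))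
    rw [hf2 s, h0, zero_pow (pow_ne_zero _ hl.ne_zero)] at h3
    exact zero_ne_one h3
  · rw [hf2 s]
    exact pow_dvd_pow l (by omega)

/-- all `n`. -/
lemma ordn (h : T_ORD) (a : ℕ) (ha : 2 ≤ a) (n : ℕ) : 1 ≤ n → ∀ b : ℕ, b ≠ 0 →
    ∃ q : ℕ, 1 ≤ q ∧ q.Coprime b ∧ q.Coprime a ∧ n ∣ orderOf (a : ZMod q) := by
  induction n using Nat.recOnPosPrimePosCoprime with
  | prime_pow p k hp hk => exact fun _ b hb => ppow h a p k ha hp b hb
  | zero => intro h0; omega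
  | one => exact fun _ b hb => ⟨1, le_refl _, Nat.coprime_one_left _, Nat.coprime_one_left _, one_dvd _⟩
  | coprime m n hm hn hmn ihm ihn =>
    intro _ b hb
    obtain ⟨q1, h1, h2, h3, h4⟩ := ihm (by omega) b hb
    obtain ⟨q2, k1, k2, k3, k4⟩ := ihn (by omega) b hb
    refine ⟨q1 * q2, Nat.mul_pos h1 k1, h2.mul_left k2, h3.mul_left k3, ?_⟩
    exact hmn.mul_dvd_of_dvd_of_dvd (h4.trans (ord_dvd a _ _ (dvd_mul_right _ _)))
      (k4.trans (ord_dvd a _ _ (dvd_mul_left _ _)))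

theorem pf_QCH (h_ORD : T_ORD) : T_QCH := by
  intro n a b hn ha hb
  obtain ⟨q1, h1, h2, h3, h4⟩ := ordn h_ORD a ha n hn b hb
  obtain ⟨q2, k1, k2, k3, k4⟩ := ordn h_ORD a ha n hn (b * q1) (mul_ne_zero hb (by omega))
  have hcop : q1.Coprime q2 := (Nat.Coprime.coprime_mul_left_right k2).symm
  have hk2 : q2.Coprime b := Nat.Coprime.coprime_mul_right_right k2
  let e := ZMod.chineseRemainder hcop
  have hca : a.Coprime (q1 * q2) := (h3.mul_left k3).symm
  have hca1 : a.Coprime q1 := h3.symm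
  let α : (ZMod (q1 * q2))ˣ := ZMod.unitOfCoprime a hca
  let u1 : (ZMod q1)ˣ := ZMod.unitOfCoprime a hca1
  let τ : (ZMod (q1 * q2))ˣ :=
    (Units.mapEquiv e.toMulEquiv).symm (MulEquiv.prodUnits.symm (u1, 1))
  have hα : ((α : (ZMod (q1 * q2))ˣ) : ZMod (q1 * q2)) = a := ZMod.coe_unitOfCoprime a hca
  have hτ : e ((τ : (ZMod (q1 * q2))ˣ) : ZMod (q1 * q2)) = ((a : ZMod q1), (1 : ZMod q2)) := by
    have : (Units.mapEquiv e.toMulEquiv) τ = MulEquiv.prodUnits.symm (u1, 1) :=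
      MulEquiv.apply_symm_apply _ _
    have h5 := congrArg (fun z : (ZMod q1 × ZMod q2)ˣ => (z : ZMod q1 × ZMod q2)) this
    exact h5
  refine ⟨q1 * q2, α, τ, Nat.mul_pos h1 k1, h2.mul_left hk2, h3.mul_left k3, hα, ?_⟩
  intro i j hij
  have h6 : ((τ : (ZMod (q1 * q2))ˣ) : ZMod (q1 * q2)) ^ i * (a : ZMod (q1 * q2)) ^ j = 1 := by
    have := congrArg (fun z : (ZMod (q1 * q2))ˣ => (z : ZMod (q1 * q2))) hij
    simpa [hα] using this
  have h7 := congrArg e h6
  rw [map_mul, map_pow, map_pow, hτ, map_natCast, map_one] at h7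
  have h8 : (a : ZMod q2) ^ j = 1 := by
    have := congrArg Prod.snd h7
    simpa using this
  have h9 : (a : ZMod q1) ^ (i + j) = 1 := by
    have := congrArg Prod.fst h7
    rw [pow_add]
    simpa using this
  have hj : n ∣ j := k4.trans (orderOf_dvd_of_pow_eq_one h8)
  have hij' : n ∣ i + j := h4.trans (orderOf_dvd_of_pow_eq_one h9)
  exact ⟨(Nat.dvd_add_left hj).1 hij', hj⟩

end Pool.Agent.H61.RQ
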