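import Pool.Agent.H32.RQ.Targets

/-!
# Row POS: a positive proportion of the pairs has a zero
-/

set_option autoImplicit false

open Finset

namespace Pool.Agent.H61.RQ

open Pool.Agent.H32.RQ

open scoped Nat in
open Classical in
theorem pf_POS (hMN : T_MN) (hAQ4 : T_AQ4) (hPS1 : T_PS1) (hPS2 : T_PS2) (hPS3 : T_PS3) :
    T_POS := by
  intro s hs
  obtain ⟨C, hC, hA4⟩ := hAQ4 s hs
  -- the choice of w₀
  obtain ⟨w₀, hw1, hw⟩ : ∃ w₀ : ℕ, 1 ≤ w₀ ∧ 2 * (C * 8 ^ (2 * md s)) ≤ (w₀ : ℝ) ^ 2 := by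
    obtain ⟨n, hn⟩ := exists_nat_ge (2 * (C * 8 ^ (2 * md s)))
    refine ⟨n + 1, by omega, hn.trans ?_⟩
    push_cast
    nlinarith [Nat.cast_nonneg (α := ℝ) n]
  obtain ⟨r₀, hr₀, hM⟩ := hMN s (1 / 2) 1 w₀ hs (by norm_num)
  obtain ⟨r, hrdef⟩ : ∃ r : ℝ, r = min r₀ (1 / 4) := ⟨_, rfl⟩
  have hr : 0 < r := by rw [hrdef]; exact lt_min hr₀ (by norm_num)
  have hrr : r ≤ r₀ := by rw [hrdef]; exact min_le_left _ _
  have hr4 : r ≤ 1 / 4 := by rw [hrdef]; exact min_le_right _ _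
  obtain ⟨V, hV⟩ : ∃ V : ℕ, V = (w₀ !) ^ 2 := ⟨_, rfl⟩
  have hV1 : 1 ≤ V := by
    rw [hV]
    exact Nat.one_le_pow _ _ (Nat.factorial_pos _)
  have hVR : (1 : ℝ) ≤ V := by exact_mod_cast hV1
  obtain ⟨ε, hε⟩ : ∃ ε : ℝ, ε = 1 / 4 * (r / (6 * V)) ^ (2 * md s) := ⟨_, rfl⟩
  have hε0 : 0 < ε := by rw [hε]; positivity
  obtain ⟨W₁, K, A₀, hne, hcop, hcount⟩ := hM ε hε0
  have hVW : Nat.Coprime V W₁ := by
    rw [hV]
    refine Nat.Coprime.pow_left 2 (Nat.coprime_of_dvd fun p hp h1 h2 => ?_)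
    have h3 := (hp.dvd_factorial).1 h1
    have h4 := hcop p hp h2
    omega
  obtain ⟨A₁, hA₁⟩ := hPS2 s V r hV1 hr (by linarith)
  obtain ⟨A₂, hA₂⟩ := hPS3 s V W₁ r hV1 hr (by linarith) hVW
  refine ⟨ε, hε0, A₀ + A₁ + A₂ + 1, fun A hA => ?_⟩
  have hAR : (1 : ℝ) ≤ A := by
    have : 1 ≤ A := by omega
    exact_mod_cast this
  have hWpos : (0 : ℝ) < W₁ := by
    have : 0 < W₁ := Nat.pos_of_ne_zero hne.out
    exact_mod_cast this
  have hcnt := hcount A (by omega)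
  have hQ := hA₁ A (by omega)
  obtain ⟨Q, hQdef⟩ : ∃ Q : ℝ, Q = (r * A / (2 * V)) ^ (2 * md s) := ⟨_, rfl⟩
  rw [← hQdef] at hQ
  obtain ⟨E, hE⟩ : ∃ E : Finset (Fin 2 → Mon s → ZMod W₁), E =
    (Finset.univ.filter fun F : Fin 2 → Mon s → ZMod W₁ => 2 * am W₁ F < W₁ ^ (s - 2)) :=
    ⟨_, rfl⟩
  have hE4 : (E.card : ℝ) * (w₀ : ℝ) ^ 2 ≤ C * (W₁ : ℝ) ^ (2 * md s) := by
    rw [hE]
    exact hA4 W₁ w₀ hw1 hcop
  have hZ := hA₂ A (by omega) E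
  have hmemE : ∀ F : Fin 2 → Mon s → ZMod W₁, F ∈ E ↔ 2 * am W₁ F < W₁ ^ (s - 2) := by
    intro F
    rw [hE, mem_filter]
    exact ⟨fun h => h.2, fun h => ⟨mem_univ _, h⟩⟩
  -- the first set
  obtain ⟨Z, hZdef⟩ : ∃ Z : Finset (Fin 2 → Mon s → ℤ),
    Z = (sp s V A r).filter fun c => cm (ZMod W₁) c ∈ E := ⟨_, rfl⟩
  have hZ' : (Z.card : ℝ) * (W₁ : ℝ) ^ (2 * md s) ≤ (4 * r * A / V) ^ (2 * md s) * E.card := by
    rw [hZdef]
    exact hZ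
  have hZQ : (Z.card : ℝ) ≤ 1 / 2 * Q := by
    have h8 : (4 * r * A / V) ^ (2 * md s) = 8 ^ (2 * md s) * Q := by
      rw [hQdef, ← mul_pow]
      congr 1
      field_simp
      norm_num
    have hQ0 : 0 ≤ Q := by rw [hQdef]; positivity
    have hW : (0 : ℝ) < (W₁ : ℝ) ^ (2 * md s) := by positivity
    have hw0 : (0 : ℝ) < (w₀ : ℝ) ^ 2 := by
      have : (1 : ℝ) ≤ w₀ := by exact_mod_cast hw1
      positivity
    have h9 : ((Z.card : ℝ) * (w₀ : ℝ) ^ 2) * (W₁ : ℝ) ^ (2 * md s) ≤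
        (8 ^ (2 * md s) * Q * C) * (W₁ : ℝ) ^ (2 * md s) := by
      calc ((Z.card : ℝ) * (w₀ : ℝ) ^ 2) * (W₁ : ℝ) ^ (2 * md s)
          = ((Z.card : ℝ) * (W₁ : ℝ) ^ (2 * md s)) * (w₀ : ℝ) ^ 2 := by ring
        _ ≤ ((4 * r * A / V) ^ (2 * md s) * E.card) * (w₀ : ℝ) ^ 2 :=
            mul_le_mul_of_nonneg_right hZ' hw0.le
        _ = (8 ^ (2 * md s) * Q) * ((E.card : ℝ) * (w₀ : ℝ) ^ 2) := by rw [h8]; ring
        _ ≤ (8 ^ (2 * md s) * Q) * (C * (W₁ : ℝ) ^ (2 * md s)) :=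
            mul_le_mul_of_nonneg_left hE4 (by positivity)
        _ = _ := by ring
    have h10 : (Z.card : ℝ) * (w₀ : ℝ) ^ 2 ≤ 8 ^ (2 * md s) * Q * C :=
      le_of_mul_le_mul_right h9 hW
    have h11 : 8 ^ (2 * md s) * Q * C ≤ 1 / 2 * Q * (w₀ : ℝ) ^ 2 := by
      have := mul_le_mul_of_nonneg_right hw hQ0
      nlinarith
    exact le_of_mul_le_mul_right (h10.trans h11) hw0
  -- the second set
  obtain ⟨N, hNdef⟩ : ∃ N : Finset (Fin 2 → Mon s → ℤ),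
    N = ((bx s A).filter fun c => RB (1 / 2) r₀ A c ∧ (∀ p : ℕ, p.Prime → p ≤ w₀ → PR 1 p c) ∧
      W₁ ^ (s - 2) ≤ 2 * am W₁ (cm (ZMod W₁) c) ∧ ¬ SZ K A c) := ⟨_, rfl⟩
  have h3A : (2 * (A : ℝ) + 1) ^ (2 * md s) ≤ (3 * (A : ℝ)) ^ (2 * md s) := by
    gcongr
    linarith
  have hεA : ε * (2 * (A : ℝ) + 1) ^ (2 * md s) ≤ 1 / 4 * Q := by
    calc ε * (2 * (A : ℝ) + 1) ^ (2 * md s) ≤ ε * (3 * (A : ℝ)) ^ (2 * md s) :=
          mul_le_mul_of_nonneg_left h3A hε0.le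
      _ = 1 / 4 * Q := by
          rw [hε, hQdef, mul_assoc, ← mul_pow]
          congr 2
          field_simp
          norm_num
  have hNQ : (N.card : ℝ) ≤ 1 / 4 * Q := by
    rw [hNdef]
    exact hcnt.trans hεA
  -- the target set
  obtain ⟨Tg, hTdef⟩ : ∃ Tg : Finset (Fin 2 → Mon s → ℤ),
    Tg = ((bx s A).filter fun c => ∃ x : Fin s → ℤ, x ≠ 0 ∧ ∀ i, qf (c i) x = 0) := ⟨_, rfl⟩
  have hsub : sp s V A r ⊆ (Z ∪ N) ∪ Tg := by
    intro c hc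
    obtain ⟨hRB, hPR⟩ := hPS1 s V A r c (by omega) hr4 hc
    have hcbx : c ∈ bx s A := by
      unfold sp at hc
      rw [mem_filter] at hc
      exact hc.1
    rw [mem_union, mem_union]
    by_cases h1 : cm (ZMod W₁) c ∈ E
    · left; left
      rw [hZdef, mem_filter]
      exact ⟨hc, h1⟩
    · by_cases h2 : SZ K A c
      · right
        rw [hTdef, mem_filter]
        obtain ⟨x, hx0, hx, -⟩ := h2
        exact ⟨hcbx, x, hx0, hx⟩
      · left; right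
        rw [hNdef, mem_filter]
        refine ⟨hcbx, ?_, ?_, ?_, h2⟩
        · obtain ⟨x, hx1, hx2, hx3, hx4⟩ := hRB
          refine ⟨x, hx1, hx2, fun i => (hx3 i).trans ?_, hx4⟩
          exact mul_le_mul_of_nonneg_right hrr (by linarith)
        · intro p hp hpw
          refine hPR p hp ?_
          rw [hV]
          exact pow_dvd_pow_of_dvd ((hp.dvd_factorial).2 hpw) 2
        · rw [hmemE] at h1
          exact not_lt.1 h1
  have hcard : ((sp s V A r).card : ℝ) ≤ Z.card + N.card + Tg.card := by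
    have h1 := Finset.card_le_card hsub
    have h2 := Finset.card_union_le (Z ∪ N) Tg
    have h3 := Finset.card_union_le Z N
    have h4 : (sp s V A r).card ≤ Z.card + N.card + Tg.card := by omega
    exact_mod_cast h4
  rw [← hTdef]
  linarith

end Pool.Agent.H61.RQ
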